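import Pool.Agent.Helper19.CP.Spec

set_option autoImplicit false

namespace Pool.Agent.Helper49.CP.DSC

open MvPolynomial Pool.Agent.Helper19.CP

/-- substitution over any ring -/
noncomputable def sb {R : Type} [CommRing R] {m : ℕ} (φ : Matrix (Fin m) (Fin m) R)
    (p : MvPolynomial (Fin m) R) : MvPolynomial (Fin m) R := aeval (fun j => ∑ l, C (φ j l) * X l) p

section

variable {R S : Type} [CommRing R] [CommRing S] {m : ℕ}

theorem sb_C_mul (φ : Matrix (Fin m) (Fin m) R) (a : R) (p : MvPolynomial (Fin m) R) :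
    sb φ (C a * p) = C a * sb φ p := by
  simp [sb, algHom_C]

theorem sb_sb (φ ψ : Matrix (Fin m) (Fin m) R) (p : MvPolynomial (Fin m) R) :
    sb ψ (sb φ p) = sb (φ * ψ) p := by
  have h : (aeval (fun j => ∑ l, C (ψ j l) * X l) : MvPolynomial (Fin m) R →ₐ[R] _).comp
      (aeval (fun j => ∑ l, C (φ j l) * X l)) =
      (aeval (fun j => ∑ l, C ((φ * ψ) j l) * X l) : MvPolynomial (Fin m) R →ₐ[R] _) := by
    refine MvPolynomial.algHom_ext fun j => ?_
    simp only [AlgHom.comp_apply, aeval_X, map_sum, map_mul, algHom_C, algebraMap_eq,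
      Matrix.mul_apply, Finset.mul_sum, Finset.sum_mul]
    rw [Finset.sum_comm]
    refine Finset.sum_congr rfl fun k _ => Finset.sum_congr rfl fun l _ => ?_
    ring
  exact DFunLike.congr_fun h p

theorem map_sb (f : R →+* S) (φ : Matrix (Fin m) (Fin m) R) (p : MvPolynomial (Fin m) R) :
    map f (sb φ p) = sb (φ.map f) (map f p) := by
  induction p using MvPolynomial.induction_on with
  | C a => simp [sb, algHom_C]
  | add p q hp hq =>
    have h1 : sb φ (p + q) = sb φ p + sb φ q := by simp [sb]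
    have h2 : sb (φ.map f) (map f (p + q)) = sb (φ.map f) (map f p) + sb (φ.map f) (map f q) := by
      simp [sb]
    rw [h1, h2, map_add, hp, hq]
  | mul_X p i hp =>
    have h1 : sb φ (p * X i) = sb φ p * ∑ l, C (φ i l) * X l := by simp [sb]
    have h2 : sb (φ.map f) (map f (p * X i)) =
        sb (φ.map f) (map f p) * ∑ l, C ((φ.map f) i l) * X l := by simp [sb]
    rw [h1, h2, map_mul, hp]
    congr 1
    simp

theorem sb_smul {D : ℕ} (β : R) (φ : Matrix (Fin m) (Fin m) R) (p : MvPolynomial (Fin m) R)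
    (hp : p.IsHomogeneous D) : sb (β • φ) p = C (β ^ D) * sb φ p := by
  unfold sb
  rw [aeval_def, aeval_def, eval₂_eq', eval₂_eq', Finset.mul_sum]
  refine Finset.sum_congr rfl fun d hd => ?_
  have h1 : ∑ i, d i = D := by
    have := hp.degree_eq_sum_deg_support hd
    rw [this]
    exact (Finset.sum_subset (Finset.subset_univ _)
      (fun x _ hx => Finsupp.notMem_support_iff.1 hx)).symm
  have h2 : ∀ i, (∑ l, C ((β • φ) i l) * X l : MvPolynomial (Fin m) R) ^ d i =
      C β ^ d i * (∑ l, C (φ i l) * X l) ^ d i := by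
    intro i
    rw [← mul_pow, Finset.mul_sum]
    congr 1
    refine Finset.sum_congr rfl fun l _ => ?_
    rw [Matrix.smul_apply, smul_eq_mul, C_mul]
    ring
  rw [Finset.prod_congr rfl fun i _ => h2 i, Finset.prod_mul_distrib, Finset.prod_pow_eq_pow_sum,
    h1, C_pow]
  ring

end

theorem subst_eq {m : ℕ} (φ : Matrix (Fin m) (Fin m) ℂ) (p : MvPolynomial (Fin m) ℂ) :
    subst φ p = sb φ p := rfl

/-- a parametrization is not zero -/
theorem ne_zero {n D : ℕ} {F : MvPolynomial (Fin (n + 2)) ℂ} {G : Tuple n} (hF : F.IsHomogeneous 3)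
    (hG : IsParam F D G) : ∃ i α, (G i).coeff α ≠ 0 := by
  by_contra hcon
  push Not at hcon
  have h0 : ∀ i, G i = 0 := fun i => by
    ext α
    rw [hcon, coeff_zero]
  have h1 : F ∣ X 0 := hG.dom 1 (X 0) (isHomogeneous_X ℂ 0) (by rw [aeval_X, h0])
  obtain ⟨q, hq⟩ := h1
  have hX : (X 0 : MvPolynomial (Fin (n + 2)) ℂ) ≠ 0 := X_ne_zero 0
  have hF0 : F ≠ 0 := by rintro rfl; exact hX (by rw [hq, zero_mul])
  have hq0 : q ≠ 0 := by rintro rfl; exact hX (by rw [hq, mul_zero])
  have h2 := totalDegree_mul_of_isDomain hF0 hq0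
  rw [← hq, totalDegree_X, hF.totalDegree hF0] at h2
  omega

theorem main (hCOC : S_COC) (hUNI : S_UNI) (hST1 : S_ST1) : S_DSC := by
  intro n D K F G L E P hF hG hfin hgal hover hE hcop hEqu
  classical
  -- the embedding
  set emb : L →+* ℂ := algebraMap L ℂ with hemb
  have hembI : Function.Injective emb := emb.injective
  have hembc : ∀ x : L, emb x = (x : ℂ) := fun x => rfl
  have hmapI : Function.Injective (map (σ := Fin (n + 1)) emb) := map_injective _ hembI
  -- lifts
  have hlift : ∀ i, ∃ g : MvPolynomial (Fin (n + 1)) L, map emb g = G i := by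
    intro i
    have h1 : G i ∈ Set.range (map (σ := Fin (n + 1)) emb) := by
      rw [mem_range_map_iff_coeffs_subset]
      intro z hz
      rw [Finset.mem_coe, mem_coeffs_iff] at hz
      obtain ⟨α, _, rfl⟩ := hz
      exact ⟨⟨(G i).coeff α, hover i α⟩, rfl⟩
    exact h1
  choose g hg using hlift
  have hgh : ∀ i, (g i).IsHomogeneous D := fun i => by
    have h1 := hG.hom i
    rw [← hg i] at h1
    exact h1.of_map hembI
  have hEσ : ∀ (σ : L ≃ₐ[K] L) (p : MvPolynomial (Fin (n + 1)) L),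
      map (E σ : ℂ →+* ℂ) (map emb p) = map emb (map (σ : L →+* L) p) := by
    intro σ p
    have h1 : (E σ : ℂ →+* ℂ).comp emb = emb.comp (σ : L →+* L) := RingHom.ext fun x => hE σ x
    rw [map_map, map_map, h1]
  -- the relations over `L`
  have hrel : ∀ σ : P, ∃ (c : L) (φ : Matrix (Fin (n + 1)) (Fin (n + 1)) L), c ≠ 0 ∧ φ.det ≠ 0 ∧
      ∀ i, map ((σ : L ≃ₐ[K] L) : L →+* L) (g i) = C c * sb φ (g i) := by
    intro σ
    obtain ⟨c, φ, hc, hφ, hc0, hφ0, he⟩ := hEqu σ σ.2
    have h2 : φ = (Matrix.of fun i j => (⟨φ i j, hφ i j⟩ : L)).map emb := by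
      ext i j
      rfl
    refine ⟨⟨c, hc⟩, Matrix.of fun i j => ⟨φ i j, hφ i j⟩, ?_, ?_, fun i => ?_⟩
    · intro h
      exact hc0 (congrArg emb h)
    · intro h
      apply hφ0
      rw [h2, ← RingHom.mapMatrix_apply, ← RingHom.map_det, h, map_zero]
    · apply hmapI
      rw [← hEσ, hg, (map emb).map_mul, map_C, map_sb, hg, ← h2]
      exact he i
  choose c φ hc0 hφ0 hcφ using hrel
  have hmapne : ∀ (A : Matrix (Fin (n + 1)) (Fin (n + 1)) L) (f : L →+* L), A.det ≠ 0 →
      (A.map f).det ≠ 0 := by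
    intro A f hA
    rw [← RingHom.mapMatrix_apply, ← RingHom.map_det]
    exact fun h => hA (f.injective (h.trans (map_zero f).symm))
  have hmapne' : ∀ (A : Matrix (Fin (n + 1)) (Fin (n + 1)) L), A.det ≠ 0 →
      (A.map emb).det ≠ 0 := by
    intro A hA
    rw [← RingHom.mapMatrix_apply, ← RingHom.map_det]
    exact fun h => hA (hembI (h.trans (map_zero emb).symm))
  have hfinP : Finite P := inferInstance
  obtain ⟨ψ, hψ, hβ⟩ := hCOC L P (fun σ => ((σ : L ≃ₐ[K] L) : L →+* L)) (by ext x; rfl)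
    (fun σ τ => by ext x; rfl)
    (fun σ τ h => by
      apply Subtype.ext
      apply AlgEquiv.ext
      intro x
      exact RingHom.congr_fun h x)
    (n + 1) φ hcop hφ0 (fun σ τ => by
      have h1 : ∀ i, map (((σ * τ : P) : L ≃ₐ[K] L) : L →+* L) (g i) =
          C ((σ : L ≃ₐ[K] L) (c τ) * c σ) *
            sb (φ σ * (φ τ).map (((σ : L ≃ₐ[K] L)) : L →+* L)) (g i) := by
        intro i
        have h2 : map (((σ * τ : P) : L ≃ₐ[K] L) : L →+* L) (g i) =
            map ((σ : L ≃ₐ[K] L) : L →+* L) (map ((τ : L ≃ₐ[K] L) : L →+* L) (g i)) := by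
          rw [map_map]
          rfl
        rw [h2, hcφ, map_mul, map_C, map_sb, hcφ, sb_C_mul, sb_sb, C_mul]
        rw [mul_assoc]
        rfl
      have h3 : ∀ i, C (emb ((σ : L ≃ₐ[K] L) (c τ) * c σ)) *
          subst ((φ σ * (φ τ).map (((σ : L ≃ₐ[K] L)) : L →+* L)).map emb) (G i) =
          C (emb (c (σ * τ))) * subst ((φ (σ * τ)).map emb) (G i) := by
        intro i
        have h4 := (h1 i).symm.trans (hcφ (σ * τ) i)
        have h5 := congrArg (map emb) h4
        rw [(map emb).map_mul, (map emb).map_mul, map_C, map_C, map_sb, map_sb, hg] at h5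
        exact h5
      have hd : (φ σ * (φ τ).map (((σ : L ≃ₐ[K] L)) : L →+* L)).det ≠ 0 := by
        rw [Matrix.det_mul]
        exact mul_ne_zero (hφ0 σ) (hmapne _ _ (hφ0 τ))
      obtain ⟨μ, hμ0, hμ⟩ := hUNI n D F G hG _ _ _ _ (by
          intro h
          rw [← map_zero emb] at h
          have h6 := hembI h
          exact mul_ne_zero ((map_ne_zero_iff _ (σ : L ≃ₐ[K] L).injective).2 (hc0 τ)) (hc0 σ) h6)
        (by
          intro h
          rw [← map_zero emb] at h
          exact hc0 _ (hembI h))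
        (hmapne' _ hd) (hmapne' _ (hφ0 (σ * τ))) h3
      -- a nonzero entry
      obtain ⟨i, j, hij⟩ : ∃ i j, (φ σ * (φ τ).map (((σ : L ≃ₐ[K] L)) : L →+* L)) i j ≠ 0 := by
        by_contra hcon
        push Not at hcon
        apply hd
        have : (φ σ * (φ τ).map (((σ : L ≃ₐ[K] L)) : L →+* L)) = 0 :=
          Matrix.ext fun i j => hcon i j
        rw [this, Matrix.det_zero]
      set A := φ σ * (φ τ).map (((σ : L ≃ₐ[K] L)) : L →+* L) with hA
      have hμ' : μ = emb (φ (σ * τ) i j / A i j) := by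
        have h7 := congrFun (congrFun hμ i) j
        simp only [Matrix.map_apply, Matrix.smul_apply, smul_eq_mul] at h7
        rw [map_div₀, h7, mul_div_assoc, div_self, mul_one]
        intro h
        rw [← map_zero emb] at h
        exact hij (hembI h)
      refine ⟨φ (σ * τ) i j / A i j, ?_, ?_⟩
      · intro h
        rw [hμ', h, map_zero] at hμ0
        exact hμ0 rfl
      · refine Matrix.ext fun a b => hembI ?_
        have h8 := congrFun (congrFun hμ a) b
        simp only [Matrix.map_apply, Matrix.smul_apply, smul_eq_mul] at h8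
        rw [Matrix.smul_apply, smul_eq_mul, map_mul, ← hμ']
        exact h8)
  -- the transformed tuple
  have hG0 : IsParam F D (fun i => C 1 * subst (ψ.map emb) (G i)) :=
    hST1 n D F G hF hG 1 (ψ.map emb) one_ne_zero (hmapne' _ hψ)
  obtain ⟨i0, α0, h0⟩ := ne_zero hF hG0
  have hc1 : ∀ i α, (C 1 * subst (ψ.map emb) (G i)).coeff α = emb ((sb ψ (g i)).coeff α) := by
    intro i α
    rw [C_1, one_mul, subst_eq, ← hg i, ← map_sb, coeff_map]
  set a : L := (sb ψ (g i0)).coeff α0 with ha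
  have ha0 : a ≠ 0 := by
    intro h
    apply h0
    show (C 1 * subst (ψ.map emb) (G i0)).coeff α0 = 0
    rw [hc1, ← ha, h, map_zero]
  refine ⟨fun i => C (emb a⁻¹) * subst (ψ.map emb) (G i),
    hST1 n D F G hF hG (emb a⁻¹) (ψ.map emb) (by
      intro h
      rw [← map_zero emb] at h
      exact inv_ne_zero ha0 (hembI h)) (hmapne' _ hψ), fun i α => ?_⟩
  refine ⟨a⁻¹ * (sb ψ (g i)).coeff α, ?_, fun σ hσ => ?_⟩
  · show _ = (C (emb a⁻¹) * subst (ψ.map emb) (G i)).coeff α
    rw [coeff_C_mul, subst_eq, ← hg i, ← map_sb, coeff_map, ← map_mul]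
    rfl
  · obtain ⟨β, hβ0, hβ1⟩ := hβ ⟨σ, hσ⟩
    have h1 : ∀ i α, σ ((sb ψ (g i)).coeff α) =
        (c ⟨σ, hσ⟩ * β ^ D) * (sb ψ (g i)).coeff α := by
      intro i α
      have h2 : map (σ : L →+* L) (sb ψ (g i)) = C (c ⟨σ, hσ⟩ * β ^ D) * sb ψ (g i) := by
        rw [map_sb]
        have h3 := hcφ ⟨σ, hσ⟩ i
        have h4 : map (σ : L →+* L) (g i) = C (c ⟨σ, hσ⟩) * sb (φ ⟨σ, hσ⟩) (g i) := h3
        have h5 : φ ⟨σ, hσ⟩ * ψ.map (σ : L →+* L) = β • ψ := hβ1
        rw [h4, sb_C_mul, sb_sb, h5, sb_smul β ψ (g i) (hgh i), C_mul, mul_assoc]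
      have h6 := congrArg (coeff α) h2
      rw [coeff_map, coeff_C_mul] at h6
      exact h6
    have h7 : c ⟨σ, hσ⟩ * β ^ D ≠ 0 := mul_ne_zero (hc0 _) (pow_ne_zero _ hβ0)
    have h8 : σ a = (c ⟨σ, hσ⟩ * β ^ D) * a := h1 i0 α0
    rw [map_mul, map_inv₀, h8, h1]
    generalize c ⟨σ, hσ⟩ * β ^ D = κ at h7
    generalize (sb ψ (g i)).coeff α = q
    rw [mul_inv, mul_mul_mul_comm, inv_mul_cancel₀ h7, one_mul]

end Pool.Agent.Helper49.CP.DSC
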